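import Mathlib
import Pool.Agent.Lib_helper53.PFI.Four

/-!
# MP_8de585_an: a Banach space with the primary factorisation property which is not primary
-/

set_option autoImplicit false

namespace Pool.Agent.Results.MP_8de585_an.PFPNotPrimary

/-- the identity of `X` factors through the operator `T` -/
def IdFactorsThrough {X : Type} [NormedAddCommGroup X] [NormedSpace ℝ X] (T : X →L[ℝ] X) : Prop :=
  ∃ A B : X →L[ℝ] X, A.comp (T.comp B) = ContinuousLinearMap.id ℝ X

/-- the primary factorisation property of a real Banach space -/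
def HasPFP (X : Type) [NormedAddCommGroup X] [NormedSpace ℝ X] : Prop :=
  ∀ T : X →L[ℝ] X, IdFactorsThrough T ∨ IdFactorsThrough (ContinuousLinearMap.id ℝ X - T)

/-- primary real Banach spaces: in every decomposition of `X` into two Banach spaces one of the
summands is isomorphic to `X` -/
def IsPrimarySpace (X : Type) [NormedAddCommGroup X] [NormedSpace ℝ X] : Prop :=
  ∀ (Y Z : Type) [NormedAddCommGroup Y] [NormedSpace ℝ Y] [CompleteSpace Y]
    [NormedAddCommGroup Z] [NormedSpace ℝ Z] [CompleteSpace Z],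
    Nonempty (X ≃L[ℝ] Y × Z) → Nonempty (X ≃L[ℝ] Y) ∨ Nonempty (X ≃L[ℝ] Z)

/-- There is a real Banach space with the primary factorisation property which is not primary; it
is isomorphic to its fourth power but not to its square. -/
theorem result :
    ∃ (X : Type) (_ : NormedAddCommGroup X) (_ : NormedSpace ℝ X) (_ : CompleteSpace X),
      HasPFP X ∧ ¬ IsPrimarySpace X ∧ Nonempty (X ≃L[ℝ] (X × X) × (X × X)) ∧
        ¬ Nonempty (X ≃L[ℝ] X × X) := by
  obtain ⟨X, i1, i2, i3, h1, ⟨e⟩, h3⟩ := Pool.Agent.Lib_helper53.PF.exists_pfp_four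
  refine ⟨X, i1, i2, i3, fun T => ?_, fun h => ?_, ⟨e⟩, fun h => h.elim h3.elim⟩
  · rcases h1 T with ⟨U, V, h⟩ | ⟨U, V, h⟩
    · exact Or.inl ⟨U, V, by rw [mul_assoc] at h; exact h⟩
    · exact Or.inr ⟨U, V, by rw [mul_assoc] at h; exact h⟩
  · rcases h (X × X) (X × X) ⟨e⟩ with h4 | h4
    · exact h4.elim h3.elim
    · exact h4.elim h3.elim

end Pool.Agent.Results.MP_8de585_an.PFPNotPrimary
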